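import Pool.Agent.Lib.MP_e1f7e2_al.FA.Iface

set_option autoImplicit false

/-!
Project FA, module CHAIN: the derivative and the chain rule.
-/

open MulOpposite

namespace Pool.Agent.Lib.MP_e1f7e2_al.FA.H74

section

variable {K : Type*} [Field K] {n m : ℕ}

theorem single_eq {G : Type*} (u : G) (c : K) :
    (MonoidAlgebra.single u c : MonoidAlgebra K G) = c • MonoidAlgebra.single u (1 : K) := by
  rw [MonoidAlgebra.smul_single', mul_one]

theorem evl_single {B : Type*} [Ring B] [Algebra K B] (F : Fin n → B) (u : Wd n) (c : K) :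
    evl F (MonoidAlgebra.single u c : A K n) = c • FreeMonoid.lift F u := by
  unfold evl
  rw [MonoidAlgebra.lift_single]

theorem inl_single (u : Wd n) (c : K) :
    inl (MonoidAlgebra.single u c : A K n) = MonoidAlgebra.single (u, 1) c := by
  unfold inl
  rw [evl_single, single_eq (u, (1 : (Wd n)ᵐᵒᵖ)) c]
  congr 1
  have h : FreeMonoid.lift (fun i : Fin n =>
      (MonoidAlgebra.single (FreeMonoid.of i, (1 : (Wd n)ᵐᵒᵖ)) (1 : K) : A2 K n)) =
      (MonoidAlgebra.of K (Wd n × (Wd n)ᵐᵒᵖ)).comp (MonoidHom.inl (Wd n) (Wd n)ᵐᵒᵖ) := by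
    apply FreeMonoid.hom_eq
    intro i
    rw [FreeMonoid.lift_eval_of]
    rfl
  rw [h]
  rfl

/-- the antihomomorphism `u ↦ 1 ⊗ u` on words -/
noncomputable def ropHom (K : Type*) [Field K] (n : ℕ) : Wd n →* (A2 K n)ᵐᵒᵖ where
  toFun u := op (MonoidAlgebra.single (1, op u) 1)
  map_one' := rfl
  map_mul' u v := by
    rw [← op_mul, MonoidAlgebra.single_mul_single, Prod.mk_mul_mk, ← op_mul, mul_one, mul_one]

theorem inr_single (u : Wd n) (c : K) :
    inr (MonoidAlgebra.single u c : A K n) = MonoidAlgebra.single (1, op u) c := by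
  unfold inr inrop
  rw [evl_single, single_eq ((1 : Wd n), op u) c]
  have h : FreeMonoid.lift (fun i : Fin n =>
      op (MonoidAlgebra.single ((1 : Wd n), op (FreeMonoid.of i)) (1 : K) : A2 K n)) =
      ropHom K n := by
    apply FreeMonoid.hom_eq
    intro i
    rw [FreeMonoid.lift_eval_of]
    rfl
  rw [h]
  rfl

theorem inr_add (f g : A K n) : inr (f + g) = inr f + inr g := by
  unfold inr; rw [map_add, unop_add]

theorem inr_smul (c : K) (f : A K n) : inr (c • f) = c • inr f := by
  unfold inr; rw [map_smul, unop_smul]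

theorem inr_mul (f g : A K n) : inr (f * g) = inr g * inr f := by
  unfold inr; rw [map_mul, unop_mul]

theorem inr_one : inr (1 : A K n) = 1 := by
  unfold inr; rw [map_one, unop_one]

theorem inr_zero : inr (0 : A K n) = 0 := by
  unfold inr; rw [map_zero, unop_zero]

theorem inr_sub (f g : A K n) : inr (f - g) = inr f - inr g := by
  unfold inr; rw [map_sub, unop_sub]

theorem comm_lr (f g : A K n) : inl f * inr g = inr g * inl f := by
  refine MonoidAlgebra.induction_linear f ?_ ?_ ?_
  · rw [map_zero, zero_mul, mul_zero]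
  · intro f f' h h'
    rw [map_add, add_mul, mul_add, h, h']
  · intro u a
    refine MonoidAlgebra.induction_linear g ?_ ?_ ?_
    · rw [inr_zero, zero_mul, mul_zero]
    · intro g g' h h'
      rw [inr_add, add_mul, mul_add, h, h']
    · intro v b
      rw [inl_single, inr_single, MonoidAlgebra.single_mul_single, MonoidAlgebra.single_mul_single,
        Prod.mk_mul_mk, Prod.mk_mul_mk, one_mul, one_mul, mul_one, mul_one, mul_comm a b]

theorem tn_single (u v : Wd n) (a b : K) :
    tn (MonoidAlgebra.single u a) (MonoidAlgebra.single v b) =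
      MonoidAlgebra.single (u, op v) (a * b) := by
  unfold tn
  rw [inl_single, inr_single, MonoidAlgebra.single_mul_single, Prod.mk_mul_mk, one_mul, mul_one]

theorem tn_add_left (f f' g : A K n) : tn (f + f') g = tn f g + tn f' g := by
  unfold tn; rw [map_add, add_mul]

theorem tn_add_right (f g g' : A K n) : tn f (g + g') = tn f g + tn f g' := by
  unfold tn; rw [inr_add, mul_add]

theorem tn_smul_left (c : K) (f g : A K n) : tn (c • f) g = c • tn f g := by
  unfold tn; rw [map_smul, smul_mul_assoc]

theorem tn_smul_right (c : K) (f g : A K n) : tn f (c • g) = c • tn f g := by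
  unfold tn; rw [inr_smul, mul_smul_comm]

theorem tn_zero_left (g : A K n) : tn 0 g = 0 := by
  unfold tn; rw [map_zero, zero_mul]

theorem tn_zero_right (f : A K n) : tn f 0 = 0 := by
  unfold tn; rw [inr_zero, mul_zero]

theorem tn_mul (f g f' g' : A K n) : tn f g * tn f' g' = tn (f * f') (g' * g) := by
  unfold tn
  rw [map_mul, inr_mul, mul_assoc, ← mul_assoc (inr g), ← comm_lr f' g]
  simp only [mul_assoc]

theorem tn_one_right (f : A K n) : tn f 1 = inl f := by
  unfold tn; rw [inr_one, mul_one]

theorem tn_one_left (g : A K n) : tn 1 g = inr g := by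
  unfold tn; rw [map_one, one_mul]

/-! ## the derivative -/

theorem dX_add (i : Fin n) (f g : A K n) : dX i (f + g) = dX i f + dX i g := by
  unfold dX
  rw [MonoidAlgebra.coeff_add, Finsupp.sum_add_index']
  · intro u; rw [zero_smul]
  · intro u a b; rw [add_smul]

theorem dX_zero (i : Fin n) : dX i (0 : A K n) = 0 := by
  unfold dX
  rw [MonoidAlgebra.coeff_zero, Finsupp.sum_zero_index]

theorem dX_single (i : Fin n) (u : Wd n) (c : K) :
    dX i (MonoidAlgebra.single u c : A K n) = c • dw i u.toList := by
  unfold dX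
  rw [MonoidAlgebra.coeff_single, Finsupp.sum_single_index]
  rw [zero_smul]

theorem dX_smul (i : Fin n) (c : K) (f : A K n) : dX i (c • f) = c • dX i f := by
  refine MonoidAlgebra.induction_linear f ?_ ?_ ?_
  · rw [smul_zero, dX_zero, smul_zero]
  · intro f g hf hg
    rw [smul_add, dX_add, dX_add, smul_add, hf, hg]
  · intro u a
    rw [MonoidAlgebra.smul_single', dX_single, dX_single, smul_smul]

theorem dw_append (i : Fin n) (u v : List (Fin n)) :
    (dw i (u ++ v) : A2 K n) = MonoidAlgebra.single (FreeMonoid.ofList u, 1) 1 * dw i v +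
      MonoidAlgebra.single (1, op (FreeMonoid.ofList v)) 1 * dw i u := by
  induction u with
  | nil =>
    simp only [List.nil_append, dw, mul_zero, add_zero]
    have : (MonoidAlgebra.single (FreeMonoid.ofList ([] : List (Fin n)), 1) (1 : K) : A2 K n) =
      1 := rfl
    rw [this, one_mul]
  | cons j u ih =>
    simp only [List.cons_append, dw]
    rw [ih]
    have e1 : (MonoidAlgebra.single (FreeMonoid.ofList (j :: u), (1 : (Wd n)ᵐᵒᵖ)) (1 : K) :
        A2 K n) = MonoidAlgebra.single (FreeMonoid.of j, 1) 1 *
          MonoidAlgebra.single (FreeMonoid.ofList u, 1) 1 := by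
      rw [MonoidAlgebra.single_mul_single, Prod.mk_mul_mk, mul_one, mul_one]
      rfl
    have e2 : (MonoidAlgebra.single (FreeMonoid.of j, (1 : (Wd n)ᵐᵒᵖ)) (1 : K) : A2 K n) *
        MonoidAlgebra.single (1, op (FreeMonoid.ofList v)) 1 =
        MonoidAlgebra.single (1, op (FreeMonoid.ofList v)) 1 *
          MonoidAlgebra.single (FreeMonoid.of j, 1) 1 := by
      simp only [MonoidAlgebra.single_mul_single, Prod.mk_mul_mk, one_mul, mul_one]
    have e3 : (MonoidAlgebra.single ((1 : Wd n), op (FreeMonoid.ofList (u ++ v))) (1 : K) :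
        A2 K n) = MonoidAlgebra.single (1, op (FreeMonoid.ofList v)) 1 *
          MonoidAlgebra.single (1, op (FreeMonoid.ofList u)) 1 := by
      rw [MonoidAlgebra.single_mul_single, Prod.mk_mul_mk, mul_one, mul_one, ← op_mul]
      rfl
    rw [e1, mul_add, mul_add, ← mul_assoc, ← mul_assoc, e2]
    by_cases hj : j = i
    · rw [if_pos hj, if_pos hj, e3]
      simp only [mul_assoc]
      abel
    · rw [if_neg hj, if_neg hj, mul_zero]
      simp only [mul_assoc]
      abel

theorem dX_mul (i : Fin n) (f g : A K n) :
    dX i (f * g) = inl f * dX i g + inr g * dX i f := by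
  refine MonoidAlgebra.induction_linear f ?_ ?_ ?_
  · rw [zero_mul, dX_zero, map_zero, zero_mul, mul_zero, add_zero]
  · intro f f' h h'
    rw [add_mul, dX_add, h, h', map_add, dX_add]
    simp only [add_mul, mul_add]
    abel
  · intro u a
    refine MonoidAlgebra.induction_linear g ?_ ?_ ?_
    · rw [mul_zero, dX_zero, inr_zero, zero_mul, mul_zero, add_zero]
    · intro g g' h h'
      rw [mul_add, dX_add, h, h', inr_add, dX_add]
      simp only [add_mul, mul_add]
      abel
    · intro v b
      rw [MonoidAlgebra.single_mul_single, dX_single, dX_single, dX_single, inl_single, inr_single,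
        FreeMonoid.toList_mul, dw_append, FreeMonoid.ofList_toList, FreeMonoid.ofList_toList,
        single_eq (u, (1 : (Wd n)ᵐᵒᵖ)) a, single_eq ((1 : Wd n), op v) b]
      rw [smul_mul_smul_comm, smul_mul_smul_comm, smul_add, mul_comm b a]

theorem dX_one (i : Fin n) : dX i (1 : A K n) = 0 := by
  rw [MonoidAlgebra.one_def, dX_single, FreeMonoid.toList_one]
  simp only [dw, smul_zero]

theorem dX_xx (i j : Fin n) : dX i (xx j : A K n) = if j = i then 1 else 0 := by
  unfold xx
  rw [dX_single, FreeMonoid.toList_of]
  simp only [dw, one_smul, mul_zero, add_zero]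
  rfl

theorem dl_add (f g : A K n) : dl (f + g) = dl f + dl g := by
  unfold dl; rw [map_add, inr_add]; abel

theorem dl_smul (c : K) (f : A K n) : dl (c • f) = c • dl f := by
  unfold dl; rw [map_smul, inr_smul, smul_sub]

theorem dl_zero : dl (0 : A K n) = 0 := by
  unfold dl; rw [map_zero, inr_zero, sub_zero]

theorem dl_mul (f g : A K n) : dl (f * g) = inl f * dl g + inr g * dl f := by
  unfold dl
  rw [map_mul, inr_mul, mul_sub, mul_sub, comm_lr]
  abel

/-! ## substitution in `A ⊗ A^op` -/

theorem e2_add (F : Fin m → A K n) (S T : A2 K m) : evl2 F (S + T) = evl2 F S + evl2 F T := by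
  unfold evl2
  rw [MonoidAlgebra.coeff_add, Finsupp.sum_add_index']
  · intro u; rw [zero_smul]
  · intro u a b; rw [add_smul]

theorem e2_zero (F : Fin m → A K n) : evl2 F (0 : A2 K m) = 0 := by
  unfold evl2
  rw [MonoidAlgebra.coeff_zero, Finsupp.sum_zero_index]

theorem e2_single (F : Fin m → A K n) (p : Wd m × (Wd m)ᵐᵒᵖ) (c : K) :
    evl2 F (MonoidAlgebra.single p c : A2 K m) =
      c • tn (evl F (MonoidAlgebra.single p.1 (1 : K)))
        (evl F (MonoidAlgebra.single p.2.unop (1 : K))) := by
  unfold evl2
  rw [MonoidAlgebra.coeff_single, Finsupp.sum_single_index]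
  rw [zero_smul]

theorem e2_smul (F : Fin m → A K n) (c : K) (S : A2 K m) : evl2 F (c • S) = c • evl2 F S := by
  refine MonoidAlgebra.induction_linear S ?_ ?_ ?_
  · rw [smul_zero, e2_zero, smul_zero]
  · intro f g hf hg
    rw [smul_add, e2_add, e2_add, smul_add, hf, hg]
  · intro u a
    rw [MonoidAlgebra.smul_single', e2_single, e2_single, smul_smul]

theorem e2_tn (F : Fin m → A K n) (U V : A K m) :
    evl2 F (tn U V) = tn (evl F U) (evl F V) := by
  refine MonoidAlgebra.induction_linear U ?_ ?_ ?_
  · rw [tn_zero_left, e2_zero, map_zero, tn_zero_left]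
  · intro f f' h h'
    rw [tn_add_left, e2_add, h, h', map_add, tn_add_left]
  · intro u a
    refine MonoidAlgebra.induction_linear V ?_ ?_ ?_
    · rw [tn_zero_right, e2_zero, map_zero, tn_zero_right]
    · intro g g' h h'
      rw [tn_add_right, e2_add, h, h', map_add, tn_add_right]
    · intro v b
      rw [tn_single, e2_single, single_eq u a, single_eq v b, map_smul, map_smul, tn_smul_left,
        tn_smul_right, smul_smul, unop_op]

theorem e2_mul (F : Fin m → A K n) (S T : A2 K m) :
    evl2 F (S * T) = evl2 F S * evl2 F T := by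
  refine MonoidAlgebra.induction_linear S ?_ ?_ ?_
  · rw [zero_mul, e2_zero, zero_mul]
  · intro f f' h h'
    rw [add_mul, e2_add, h, h', e2_add, add_mul]
  · intro p a
    refine MonoidAlgebra.induction_linear T ?_ ?_ ?_
    · rw [mul_zero, e2_zero, mul_zero]
    · intro g g' h h'
      rw [mul_add, e2_add, h, h', e2_add, mul_add]
    · intro q b
      rw [MonoidAlgebra.single_mul_single, e2_single, e2_single, e2_single, smul_mul_smul_comm,
        tn_mul, ← map_mul, ← map_mul, MonoidAlgebra.single_mul_single,
        MonoidAlgebra.single_mul_single, Prod.fst_mul, Prod.snd_mul, unop_mul, mul_one]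

theorem e2_inl (F : Fin m → A K n) (U : A K m) : evl2 F (inl U) = inl (evl F U) := by
  rw [← tn_one_right, e2_tn, map_one, tn_one_right]

theorem e2_inr (F : Fin m → A K n) (U : A K m) : evl2 F (inr U) = inr (evl F U) := by
  rw [← tn_one_left, e2_tn, map_one, tn_one_left]

theorem e2_one (F : Fin m → A K n) : evl2 F (1 : A2 K m) = 1 := by
  have h := e2_inl F (1 : A K m)
  rwa [map_one, map_one, map_one] at h

/-! ## derivations -/

/-- two derivations along `F` which agree on the letters agree -/
theorem der_ext (F : Fin m → A K n) (L R : A K m → A2 K n)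
    (La : ∀ P Q, L (P + Q) = L P + L Q) (Ra : ∀ P Q, R (P + Q) = R P + R Q)
    (Ls : ∀ (c : K) P, L (c • P) = c • L P) (Rs : ∀ (c : K) P, R (c • P) = c • R P)
    (Lm : ∀ P Q, L (P * Q) = inl (evl F P) * L Q + inr (evl F Q) * L P)
    (Rm : ∀ P Q, R (P * Q) = inl (evl F P) * R Q + inr (evl F Q) * R P)
    (hx : ∀ j, L (xx j) = R (xx j)) (P : A K m) : L P = R P := by
  have L0 : L 0 = 0 := by
    have := Ls 0 0
    rwa [zero_smul, zero_smul] at this
  have R0 : R 0 = 0 := by
    have := Rs 0 0
    rwa [zero_smul, zero_smul] at this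
  have L1 : L 1 = 0 := by
    have h := Lm 1 1
    rw [mul_one, map_one, map_one, inr_one, one_mul] at h
    exact left_eq_add.mp h
  have R1 : R 1 = 0 := by
    have h := Rm 1 1
    rw [mul_one, map_one, map_one, inr_one, one_mul] at h
    exact left_eq_add.mp h
  have hw : ∀ u : List (Fin m), L (MonoidAlgebra.single (FreeMonoid.ofList u) 1) =
      R (MonoidAlgebra.single (FreeMonoid.ofList u) 1) := by
    intro u
    induction u with
    | nil =>
      have : (MonoidAlgebra.single (FreeMonoid.ofList ([] : List (Fin m))) (1 : K) : A K m) = 1 :=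
        rfl
      rw [this, L1, R1]
    | cons j u ih =>
      have : (MonoidAlgebra.single (FreeMonoid.ofList (j :: u)) (1 : K) : A K m) =
          xx j * MonoidAlgebra.single (FreeMonoid.ofList u) 1 := by
        unfold xx
        rw [MonoidAlgebra.single_mul_single, mul_one]
        rfl
      rw [this, Lm, Rm, ih, hx]
  refine MonoidAlgebra.induction_linear P ?_ ?_ ?_
  · rw [L0, R0]
  · intro f g hf hg
    rw [La, Ra, hf, hg]
  · intro u c
    rw [single_eq u c, Ls, Rs]
    have := hw u.toList
    rw [FreeMonoid.ofList_toList] at this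
    rw [this]

theorem ev_eq (P : A K 2) (f g : A K n) : ev P f g = evl ![f, g] P := rfl

/-- the chain rule for a derivation `D` -/
theorem chain_gen (D : A K n → A2 K n) (Da : ∀ P Q, D (P + Q) = D P + D Q)
    (Ds : ∀ (c : K) P, D (c • P) = c • D P)
    (Dm : ∀ P Q, D (P * Q) = inl P * D Q + inr Q * D P) (P : A K 2) (f g : A K n) :
    D (ev P f g) = evl2 ![f, g] (dX 0 P) * D f + evl2 ![f, g] (dX 1 P) * D g := by
  refine der_ext ![f, g] (fun P => D (ev P f g))
    (fun P => evl2 ![f, g] (dX 0 P) * D f + evl2 ![f, g] (dX 1 P) * D g)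
    ?_ ?_ ?_ ?_ ?_ ?_ ?_ P
  · intro P Q
    simp only [ev_eq]
    rw [map_add, Da]
  · intro P Q
    simp only [dX_add, e2_add, add_mul]
    abel
  · intro c P
    simp only [ev_eq]
    rw [map_smul, Ds]
  · intro c P
    simp only [dX_smul, e2_smul, smul_mul_assoc, smul_add]
  · intro P Q
    simp only [ev_eq]
    rw [map_mul, Dm]
  · intro P Q
    simp only [dX_mul, e2_add, e2_mul, e2_inl, e2_inr, add_mul, mul_add, mul_assoc]
    abel
  · intro j
    have hx : ev (xx j : A K 2) f g = ![f, g] j := by
      rw [ev_eq]
      unfold xx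
      rw [evl_single, FreeMonoid.lift_eval_of, one_smul]
    simp only [dX_xx]
    rw [hx]
    fin_cases j
    · simp [e2_one, e2_zero]
    · simp [e2_one, e2_zero]

/-! ## coefficients -/

theorem coeff_dw (i : Fin n) (s : List (Fin n)) : ∀ (u v : List (Fin n)),
    (dw i s : A2 K n).coeff (FreeMonoid.ofList u, op (FreeMonoid.ofList v)) =
      if s = u ++ i :: v then 1 else 0 := by
  induction s with
  | nil =>
    intro u v
    simp only [dw, MonoidAlgebra.coeff_zero, Finsupp.coe_zero, Pi.zero_apply]
    rw [if_neg]
    intro h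
    have := congrArg List.length h
    simp at this
  | cons j s ih =>
    intro u v
    simp only [dw, MonoidAlgebra.coeff_add, Finsupp.add_apply]
    cases u with
    | nil =>
      have h2 : (MonoidAlgebra.single (FreeMonoid.of j, (1 : (Wd n)ᵐᵒᵖ)) (1 : K) *
          dw i s : A2 K n).coeff (FreeMonoid.ofList [], op (FreeMonoid.ofList v)) = 0 := by
        apply MonoidAlgebra.coeff_single_mul_of_forall_mul_ne
        rintro ⟨a, b⟩ h
        have h3 := congrArg (fun p : Wd n × (Wd n)ᵐᵒᵖ => p.1.toList.length) h
        simp [FreeMonoid.toList_mul] at h3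
      rw [h2, add_zero, List.nil_append]
      by_cases hj : j = i
      · subst hj
        rw [if_pos rfl]
        by_cases hs : s = v
        · subst hs
          rw [if_pos rfl, MonoidAlgebra.coeff_single]
          exact Finsupp.single_eq_same
        · rw [if_neg (fun h => hs (List.cons.inj h).2), MonoidAlgebra.coeff_single]
          apply Finsupp.single_eq_of_ne
          intro h
          apply hs
          have h4 := congrArg (fun p : Wd n × (Wd n)ᵐᵒᵖ => p.2.unop.toList) h
          simp only [unop_op, FreeMonoid.toList_ofList] at h4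
          first | exact h4 | exact h4.symm
      · rw [if_neg hj, if_neg (fun h => hj (List.cons.inj h).1), MonoidAlgebra.coeff_zero]
        rfl
    | cons a u =>
      have h1 : (if j = i then (MonoidAlgebra.single ((1 : Wd n), op (FreeMonoid.ofList s)) (1 : K) :
          A2 K n) else 0).coeff (FreeMonoid.ofList (a :: u), op (FreeMonoid.ofList v)) = 0 := by
        by_cases hj : j = i
        · rw [if_pos hj, MonoidAlgebra.coeff_single]
          apply Finsupp.single_eq_of_ne
          intro h
          have h4 := congrArg (fun p : Wd n × (Wd n)ᵐᵒᵖ => p.1.toList.length) h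
          simp at h4
        · rw [if_neg hj, MonoidAlgebra.coeff_zero]; rfl
      rw [h1, zero_add, List.cons_append]
      by_cases haj : j = a
      · subst haj
        have h2 : (MonoidAlgebra.single (FreeMonoid.of j, (1 : (Wd n)ᵐᵒᵖ)) (1 : K) *
            dw i s : A2 K n).coeff (FreeMonoid.ofList (j :: u), op (FreeMonoid.ofList v)) =
            1 * (dw i s : A2 K n).coeff (FreeMonoid.ofList u, op (FreeMonoid.ofList v)) := by
          apply MonoidAlgebra.coeff_single_mul_eq_mul_coeff
          rintro ⟨p, q⟩ -
          constructor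
          · intro h
            have h5 := congrArg (fun p : Wd n × (Wd n)ᵐᵒᵖ => p.1.toList) h
            have h6 := congrArg (fun p : Wd n × (Wd n)ᵐᵒᵖ => p.2) h
            simp only [Prod.mk_mul_mk, FreeMonoid.toList_mul, FreeMonoid.toList_of,
              FreeMonoid.toList_ofList, List.singleton_append] at h5
            simp only [Prod.mk_mul_mk, one_mul] at h6
            have h7 := (List.cons.inj h5).2
            rw [h6, ← h7, FreeMonoid.ofList_toList]
          · intro h
            rw [Prod.mk.injEq] at h
            rw [h.1, h.2, Prod.mk_mul_mk, one_mul]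
            rfl
        rw [h2, one_mul, ih]
        by_cases hs : s = u ++ i :: v
        · rw [if_pos hs, if_pos (by rw [hs])]
        · rw [if_neg hs, if_neg (fun h => hs (List.cons.inj h).2)]
      · have h2 : (MonoidAlgebra.single (FreeMonoid.of j, (1 : (Wd n)ᵐᵒᵖ)) (1 : K) *
            dw i s : A2 K n).coeff (FreeMonoid.ofList (a :: u), op (FreeMonoid.ofList v)) = 0 := by
          apply MonoidAlgebra.coeff_single_mul_of_forall_mul_ne
          rintro ⟨p, q⟩ h
          have h5 := congrArg (fun p : Wd n × (Wd n)ᵐᵒᵖ => p.1.toList) h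
          simp only [Prod.mk_mul_mk, FreeMonoid.toList_mul, FreeMonoid.toList_of,
            FreeMonoid.toList_ofList, List.singleton_append] at h5
          exact haj (List.cons.inj h5).1
        rw [h2, if_neg (fun h => haj (List.cons.inj h).1)]

theorem coeff_dX (i : Fin n) (f : A K n) (u v : Wd n) :
    (dX i f).coeff (u, op v) = f.coeff (u * FreeMonoid.of i * v) := by
  refine MonoidAlgebra.induction_linear f ?_ ?_ ?_
  · rw [dX_zero]; rfl
  · intro f g hf hg
    rw [dX_add, MonoidAlgebra.coeff_add, MonoidAlgebra.coeff_add, Finsupp.add_apply,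
      Finsupp.add_apply, hf, hg]
  · intro s c
    rw [dX_single, MonoidAlgebra.coeff_smul, Finsupp.smul_apply]
    have h := coeff_dw (K := K) i s.toList u.toList v.toList
    rw [FreeMonoid.ofList_toList, FreeMonoid.ofList_toList] at h
    rw [h, MonoidAlgebra.coeff_single]
    by_cases hs : s = u * FreeMonoid.of i * v
    · rw [if_pos, hs, Finsupp.single_eq_same, smul_eq_mul, mul_one]
      rw [hs, FreeMonoid.toList_mul, FreeMonoid.toList_mul, FreeMonoid.toList_of]
      simp
    · rw [if_neg, smul_zero, Finsupp.single_eq_of_ne]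
      · first | exact hs | exact fun h => hs h.symm
      · intro h
        apply hs
        apply FreeMonoid.toList.injective
        rw [h, FreeMonoid.toList_mul, FreeMonoid.toList_mul, FreeMonoid.toList_of]
        simp

theorem ev_mem (f g : A K n) (P : A K 2) : ev P f g ∈ B f g := by
  refine MonoidAlgebra.induction_linear P ?_ ?_ ?_
  · rw [ev_eq, map_zero]; exact Subalgebra.zero_mem _
  · intro P Q hP hQ
    rw [ev_eq, map_add]
    exact Subalgebra.add_mem _ hP hQ
  · intro u c
    rw [ev_eq, evl_single]
    apply Subalgebra.smul_mem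
    induction u using FreeMonoid.recOn with
    | one => rw [map_one]; exact Subalgebra.one_mem _
    | of_mul j u h =>
      rw [map_mul, FreeMonoid.lift_eval_of]
      refine Subalgebra.mul_mem _ ?_ h
      apply Algebra.subset_adjoin
      fin_cases j
      · exact Or.inl rfl
      · exact Or.inr rfl

theorem bmem' (f g q : A K n) : q ∈ B f g ↔ ∃ P : A K 2, q = ev P f g := by
  constructor
  · intro h
    have h1 : B f g ≤ (evl ![f, g] : A K 2 →ₐ[K] A K n).range := by
      unfold B
      apply Algebra.adjoin_le
      rintro x (rfl | hx)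
      · refine ⟨xx 0, ?_⟩
        change evl _ (xx 0) = _
        unfold xx
        rw [evl_single, FreeMonoid.lift_eval_of, one_smul]
        rfl
      · rw [Set.mem_singleton_iff] at hx
        subst hx
        refine ⟨xx 1, ?_⟩
        change evl _ (xx 1) = _
        unfold xx
        rw [evl_single, FreeMonoid.lift_eval_of, one_smul]
        rfl
    obtain ⟨P, hP⟩ := h1 h
    exact ⟨P, hP.symm⟩
  · rintro ⟨P, rfl⟩
    exact ev_mem f g P

end

theorem chain (K : Type*) [Field K] (n : ℕ) : ChainFacts K n where
  add := dX_add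
  smul := dX_smul
  one := dX_one
  xx' := dX_xx
  mul := dX_mul
  dlmul := dl_mul
  chain := fun i P f g => chain_gen (dX i) (dX_add i) (dX_smul i) (dX_mul i) P f g
  chaind := fun P f g => chain_gen dl dl_add dl_smul dl_mul P f g
  e2add := fun f g S T => e2_add ![f, g] S T
  e2smul := fun f g c S => e2_smul ![f, g] c S
  e2tn := fun f g U V => e2_tn ![f, g] U V
  e2mul := fun f g S T => e2_mul ![f, g] S T
  cf := coeff_dX
  bmem := bmem'

end Pool.Agent.Lib.MP_e1f7e2_al.FA.H74
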