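import Pool.Agent.Lib.MP_e1f7e2_al.FA.H74.Chain

set_option autoImplicit false

/-!
Project FA, module EFIN: the facts on `E` and `D`.
-/

open MulOpposite

namespace Pool.Agent.Lib.MP_e1f7e2_al.FA.H74

section

variable {K : Type*} [Field K] {n : ℕ}

theorem aeval_comm (g : A K n) (R : Polynomial K) :
    Polynomial.aeval g R * g = g * Polynomial.aeval g R := by
  have h1 : Polynomial.aeval g (R * Polynomial.X) = Polynomial.aeval g R * g := by
    rw [map_mul, Polynomial.aeval_X]
  have h2 : Polynomial.aeval g (Polynomial.X * R) = g * Polynomial.aeval g R := by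
    rw [map_mul, Polynomial.aeval_X]
  rw [← h1, ← h2, mul_comm]

/-! ## injectivity of substitutions -/

open Classical in
/-- the coefficient of `v` in the second factor -/
noncomputable def sl (T : A2 K n) (v : Wd n) : A K n :=
  ∑ p ∈ T.coeff.support, if p.2 = op v then MonoidAlgebra.single p.1 (T.coeff p) else 0

theorem coeff_sl (T : A2 K n) (v u : Wd n) : (sl T v).coeff u = T.coeff (u, op v) := by
  classical
  unfold sl
  rw [MonoidAlgebra.coeff_sum, Finsupp.finsetSum_apply]
  rw [Finset.sum_eq_single (u, op v)]
  · rw [if_pos rfl, MonoidAlgebra.coeff_single, Finsupp.single_eq_same]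
  · intro p _ hp
    by_cases h : p.2 = op v
    · rw [if_pos h, MonoidAlgebra.coeff_single, Finsupp.single_eq_of_ne]
      intro h2
      apply hp
      exact Prod.ext h2.symm h
    · rw [if_neg h]; rfl
  · intro h
    rw [if_pos rfl, MonoidAlgebra.coeff_single, Finsupp.single_eq_same]
    exact Finsupp.notMem_support_iff.mp h

/-- injectivity for pairs from injectivity for words of bounded length -/
theorem inj2_of (F : Fin n → A K 3) (m : ℕ)
    (h : ∀ P : A K n, Len m P → evl F P = 0 → P = 0) (T : A2 K n) (hT : Len2 m T)
    (h0 : evl2 F T = 0) : T = 0 := by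
  classical
  -- all second components
  set V : Finset (Wd n) := T.coeff.support.image (fun p => p.2.unop) with hV
  -- coefficients of `evl2`
  have hcoef : ∀ x y : Wd 3, (evl2 F T).coeff (x, op y) =
      (evl F (∑ v ∈ V, (evl F (sl T v)).coeff x • MonoidAlgebra.single v (1 : K))).coeff y := by
    intro x y
    have hTsum : T = ∑ v ∈ V, tn (sl T v) (MonoidAlgebra.single v (1 : K)) := by
      apply MonoidAlgebra.coeff_injective
      ext p
      obtain ⟨a, b⟩ := p
      rw [MonoidAlgebra.coeff_sum, Finsupp.finsetSum_apply]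
      have hterm : ∀ v ∈ V, (tn (sl T v) (MonoidAlgebra.single v (1 : K))).coeff (a, b) =
          if v = b.unop then T.coeff (a, b) else 0 := by
        intro v _
        have h1 : ∀ (f : A K n) (v u : Wd n), (tn f (MonoidAlgebra.single v (1 : K))).coeff
            (a, op u) = if v = u then f.coeff a else 0 := by
          intro f v u
          refine MonoidAlgebra.induction_linear f ?_ ?_ ?_
          · rw [tn_zero_left]; simp
          · intro f g hf hg
            rw [tn_add_left, MonoidAlgebra.coeff_add, Finsupp.add_apply, hf, hg,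
              MonoidAlgebra.coeff_add, Finsupp.add_apply]
            split_ifs <;> simp
          · intro s c
            rw [tn_single, mul_one, MonoidAlgebra.coeff_single, MonoidAlgebra.coeff_single,
              Finsupp.single_apply, Finsupp.single_apply]
            by_cases h2 : v = u
            · subst h2
              by_cases h3 : s = a
              · simp [h3]
              · simp [h3]
            · rw [if_neg, if_neg h2]
              intro h4
              apply h2
              exact op_injective (Prod.mk.inj h4).2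
        have h2 := h1 (sl T v) v b.unop
        rw [op_unop] at h2
        rw [h2, coeff_sl]
        by_cases h3 : v = b.unop
        · rw [if_pos h3, if_pos h3, h3, op_unop]
        · rw [if_neg h3, if_neg h3]
      rw [Finset.sum_congr rfl hterm, Finset.sum_ite_eq' V b.unop]
      by_cases hb : b.unop ∈ V
      · rw [if_pos hb]
      · rw [if_neg hb]
        by_contra hne
        apply hb
        rw [hV, Finset.mem_image]
        exact ⟨(a, b), Finsupp.mem_support_iff.mpr hne, rfl⟩
    have h5 : evl2 F T = ∑ v ∈ V, tn (evl F (sl T v)) (evl F (MonoidAlgebra.single v (1 : K))) := by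
      conv_lhs => rw [hTsum]
      have hlin : ∀ s : Finset (Wd n), evl2 F (∑ v ∈ s, tn (sl T v) (MonoidAlgebra.single v 1)) =
          ∑ v ∈ s, tn (evl F (sl T v)) (evl F (MonoidAlgebra.single v (1 : K))) := by
        intro s
        induction s using Finset.induction_on with
        | empty => rw [Finset.sum_empty, Finset.sum_empty, e2_zero]
        | insert v s hv ih => rw [Finset.sum_insert hv, Finset.sum_insert hv, e2_add, ih, e2_tn]
      exact hlin V
    have h6 : ∀ (f g : A K 3), (tn f g).coeff (x, op y) = f.coeff x * g.coeff y := by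
      intro f g
      refine MonoidAlgebra.induction_linear f ?_ ?_ ?_
      · rw [tn_zero_left]; simp
      · intro f f' hf hf'
        rw [tn_add_left, MonoidAlgebra.coeff_add, Finsupp.add_apply, hf, hf',
          MonoidAlgebra.coeff_add, Finsupp.add_apply, add_mul]
      · intro u a
        refine MonoidAlgebra.induction_linear g ?_ ?_ ?_
        · rw [tn_zero_right]; simp
        · intro g g' hg hg'
          rw [tn_add_right, MonoidAlgebra.coeff_add, Finsupp.add_apply, hg, hg',
            MonoidAlgebra.coeff_add, Finsupp.add_apply, mul_add]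
        · intro v b
          rw [tn_single, MonoidAlgebra.coeff_single, MonoidAlgebra.coeff_single,
            MonoidAlgebra.coeff_single, Finsupp.single_apply, Finsupp.single_apply,
            Finsupp.single_apply]
          by_cases h1 : u = x
          · by_cases h2 : v = y
            · simp [h1, h2]
            · simp [h1, h2]
          · simp [h1]
    rw [h5, MonoidAlgebra.coeff_sum, Finsupp.finsetSum_apply, map_sum, MonoidAlgebra.coeff_sum,
      Finsupp.finsetSum_apply]
    refine Finset.sum_congr rfl fun v _ => ?_
    rw [h6, map_smul, MonoidAlgebra.coeff_smul, Finsupp.smul_apply, smul_eq_mul]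
  -- the elements `Q_x` vanish
  have hQ : ∀ x : Wd 3, ∑ v ∈ V, (evl F (sl T v)).coeff x • (MonoidAlgebra.single v (1 : K) :
      A K n) = 0 := by
    intro x
    apply h
    · intro u hu
      rw [Finsupp.mem_support_iff, MonoidAlgebra.coeff_sum, Finsupp.finsetSum_apply] at hu
      obtain ⟨v, hv, hne⟩ := Finset.exists_ne_zero_of_sum_ne_zero hu
      have huv : v = u := by
        by_contra hne'
        apply hne
        rw [MonoidAlgebra.coeff_smul, Finsupp.smul_apply, MonoidAlgebra.coeff_single,
          Finsupp.single_apply, if_neg hne', smul_zero]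
      rw [hV, Finset.mem_image] at hv
      obtain ⟨p, hp, hpv⟩ := hv
      rw [← huv, ← hpv]
      exact (hT p hp).2
    · apply MonoidAlgebra.coeff_injective
      ext y
      rw [← hcoef x y, h0]
      rfl
  have hev : ∀ v ∈ V, evl F (sl T v) = 0 := by
    intro v hv
    apply MonoidAlgebra.coeff_injective
    ext x
    have h1 := congrArg (fun q : A K n => q.coeff v) (hQ x)
    simp only [MonoidAlgebra.coeff_sum, Finsupp.finsetSum_apply, MonoidAlgebra.coeff_smul,
      Finsupp.smul_apply, MonoidAlgebra.coeff_single, Finsupp.single_apply] at h1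
    rw [Finset.sum_eq_single v] at h1
    · rw [if_pos rfl, smul_eq_mul, mul_one] at h1
      rw [h1]; rfl
    · intro v' _ hne
      rw [if_neg hne, smul_zero]
    · intro h2; exact absurd hv h2
  have hsl : ∀ v ∈ V, sl T v = 0 := by
    intro v hv
    apply h _ _ (hev v hv)
    intro u hu
    rw [Finsupp.mem_support_iff, coeff_sl] at hu
    exact (hT (u, op v) (Finsupp.mem_support_iff.mpr hu)).1
  apply MonoidAlgebra.coeff_injective
  ext p
  obtain ⟨a, b⟩ := p
  by_contra hne
  have hb : b.unop ∈ V := by
    rw [hV, Finset.mem_image]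
    exact ⟨(a, b), Finsupp.mem_support_iff.mpr hne, rfl⟩
  apply hne
  have h1 := coeff_sl T b.unop a
  rw [hsl _ hb, op_unop] at h1
  rw [← h1]; rfl

theorem exists_len (P : A K n) : ∃ m, Len m P := by
  classical
  refine ⟨P.coeff.support.sup fun u => u.toList.length, fun u hu => ?_⟩
  exact Finset.le_sup (f := fun u : Wd n => u.toList.length) hu

theorem exists_len2 (T : A2 K n) : ∃ m, Len2 m T := by
  classical
  refine ⟨T.coeff.support.sup fun p => p.1.toList.length + p.2.unop.toList.length,
    fun p hp => ?_⟩
  have := Finset.le_sup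
    (f := fun p : Wd n × (Wd n)ᵐᵒᵖ => p.1.toList.length + p.2.unop.toList.length) hp
  constructor <;> omega

/-- an element all of whose derivatives vanish is constant -/
theorem const_of_dX (P : A K n) (h : ∀ i, dX i P = 0) : P = P.coeff 1 • 1 := by
  apply MonoidAlgebra.coeff_injective
  ext u
  rw [MonoidAlgebra.coeff_smul, Finsupp.smul_apply, MonoidAlgebra.one_def,
    MonoidAlgebra.coeff_single]
  by_cases hu : u = 1
  · subst hu
    rw [Finsupp.single_eq_same, smul_eq_mul, mul_one]
  · rw [Finsupp.single_eq_of_ne hu, smul_zero]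
    obtain ⟨i, v, hv⟩ : ∃ i v, u = FreeMonoid.of i * v := by
      cases hl : u.toList with
      | nil =>
        exfalso
        apply hu
        apply FreeMonoid.toList.injective
        rw [hl]; rfl
      | cons i v =>
        refine ⟨i, FreeMonoid.ofList v, ?_⟩
        apply FreeMonoid.toList.injective
        rw [hl]; rfl
    have h1 := coeff_dX i P 1 v
    rw [h i, one_mul, ← hv] at h1
    rw [← h1]; rfl

end

section

variable {K : Type*} [Field K] (w : Fin 3 → ℝ) (hd : DegFacts K w) (hb : DegbFacts K w)
  (hcw : ComwFacts K w) (he : ECore K w)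

include hd

theorem E_comm (f g : A K 3) : E w f g = E w g f := hd.sub_comm _ _

theorem E_le (f g : A K 3) : E w f g ≤ dg w f + dg w g := by
  unfold E
  refine (hd.sub_le _ _).trans (max_le (hd.mul_le f g) ?_)
  rw [add_comm]; exact hd.mul_le g f

theorem E_zero (f g : A K 3) (h : f * g = g * f) : E w f g = 0 := by
  unfold E; rw [h, sub_self]; exact hd.zero

theorem dg_pos (f g : A K 3) (h : f * g ≠ g * f) : 0 < dg w f := by
  rcases lt_or_eq_of_le (hd.nn f) with h1 | h1
  · exact h1
  · exfalso
    obtain ⟨c, rfl⟩ := hd.of_zero f h1.symm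
    apply h
    rw [smul_mul_assoc, mul_smul_comm, one_mul, mul_one]

include he in
theorem E_pos (f g : A K 3) (h : f * g ≠ g * f) : 0 < E w f g ∧ 0 < dg w f ∧ 0 < dg w g := by
  have hf := dg_pos w hd f g h
  have hg := dg_pos w hd g f (Ne.symm h)
  refine ⟨?_, hf, hg⟩
  rcases lt_or_eq_of_le (hd.nn (f * g - g * f)) with h1 | h1
  · exact h1
  · exfalso
    obtain ⟨c, hc⟩ := hd.of_zero _ h1.symm
    have h2 := he.nc f g h
    rw [hc] at h2
    have h3 : E w (c • (1 : A K 3)) g = 0 := by
      apply E_zero w hd
      rw [smul_mul_assoc, mul_smul_comm, one_mul, mul_one]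
    have h4 := hd.nn (f * g - g * f)
    rw [h3] at h2
    unfold E at h2
    linarith

theorem E_smul (c : K) (f g : A K 3) (hc : c ≠ 0) : E w (c • f) g = E w f g := by
  unfold E
  rw [smul_mul_assoc, mul_smul_comm, ← smul_sub]
  exact hd.smul c _ hc

omit hd in
theorem E_addp (f g : A K 3) (R : Polynomial K) :
    E w (f + Polynomial.aeval g R) g = E w f g := by
  unfold E
  congr 1
  rw [add_mul, mul_add, aeval_comm]
  abel

include hb he in
/-- injectivity of the substitution `(f, g)` -/
theorem E_inj_len (f g : A K 3) (h : f * g ≠ g * f) (m : ℕ) :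
    ∀ P : A K 2, Len m P → evl ![f, g] P = 0 → P = 0 := by
  have hconst : ∀ c : K, evl ![f, g] (c • (1 : A K 2)) = 0 → c = 0 := by
    intro c hc
    rw [map_smul, map_one] at hc
    by_contra hne
    rcases smul_eq_zero.mp hc with h1 | h1
    · exact hne h1
    · exact one_ne_zero h1
  induction m with
  | zero =>
    intro P hP h0
    have h1 : P = P.coeff 1 • 1 := by
      apply const_of_dX
      intro i
      apply MonoidAlgebra.coeff_injective
      ext p
      obtain ⟨a, b⟩ := p
      have h2 := coeff_dX i P a b.unop
      rw [op_unop] at h2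
      rw [h2]
      by_contra hne
      have h3 := hP _ (Finsupp.mem_support_iff.mpr hne)
      simp [FreeMonoid.toList_mul] at h3
    rw [h1] at h0 ⊢
    rw [hconst _ h0, zero_smul]
  | succ m ih =>
    intro P hP h0
    have hlen : ∀ i, Len2 m (dX i P) := by
      intro i p hp
      obtain ⟨a, b⟩ := p
      rw [Finsupp.mem_support_iff] at hp
      have h2 := coeff_dX i P a b.unop
      rw [op_unop] at h2
      rw [h2] at hp
      have h3 := hP _ (Finsupp.mem_support_iff.mpr hp)
      simp only [FreeMonoid.toList_mul, FreeMonoid.toList_of, List.length_append,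
        List.length_singleton] at h3
      constructor
      · simp only; omega
      · simp only; omega
    have hE0 : ∀ y : A K 3, E w (ev P f g) y = 0 := by
      intro y
      apply E_zero w hd
      rw [ev_eq, h0, zero_mul, mul_zero]
    have hEfg := (E_pos w hd he f g h).1
    have hdeg : ∀ T : A2 K 3, 0 ≤ dg2 w T := fun T => hb.nn T
    have h1 : ∀ i, dX i P = 0 := by
      intro i
      apply inj2_of ![f, g] m ih _ (hlen i)
      by_contra hne
      fin_cases i
      · have h2 := he.v2 f g P h hne
        rw [hE0] at h2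
        have h3 := hdeg (evl2 ![f, g] (dX 0 P))
        linarith
      · have h2 := he.v2' f g P h hne
        rw [hE0] at h2
        have h3 := hdeg (evl2 ![f, g] (dX 1 P))
        linarith
    have h2 := const_of_dX P h1
    rw [h2] at h0 ⊢
    rw [hconst _ h0, zero_smul]

omit hd in
/-- `dX 0` kills polynomials in the second letter -/
theorem dX_aeval (R : Polynomial K) : dX 0 (Polynomial.aeval (xx 1 : A K 2) R) = 0 := by
  have hpow : ∀ k : ℕ, dX 0 ((xx 1 : A K 2) ^ k) = 0 := by
    intro k
    induction k with
    | zero => rw [pow_zero]; exact dX_one 0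
    | succ k ih =>
      rw [pow_succ, dX_mul, ih, dX_xx, if_neg (by decide), mul_zero, mul_zero, add_zero]
  induction R using Polynomial.induction_on' with
  | add p q hp hq => rw [map_add, dX_add, hp, hq, add_zero]
  | monomial k a =>
    rw [Polynomial.aeval_monomial, ← Algebra.smul_def, dX_smul, hpow, smul_zero]

omit hd in
theorem ev_aeval (R : Polynomial K) (f g : A K 3) :
    ev (Polynomial.aeval (xx 1 : A K 2) R) f g = Polynomial.aeval g R := by
  rw [ev_eq, ← Polynomial.aeval_algHom_apply]
  congr 1
  have : evl ![f, g] (xx 1 : A K 2) = g := by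
    unfold xx
    rw [evl_single, FreeMonoid.lift_eval_of, one_smul]
    rfl
  rw [this]

include hb he in
theorem E_poly (f g : A K 3) (R : Polynomial K) (h : f * g ≠ g * f) (hR : R.natDegree ≠ 0) :
    E w (Polynomial.aeval g R) f = dg w (Polynomial.aeval g R) - dg w g + E w f g := by
  have hg := (E_pos w hd he f g h).2.2
  set P : A K 2 := Polynomial.aeval (xx 1 : A K 2) R with hP
  have hev : ev P f g = Polynomial.aeval g R := ev_aeval R f g
  have hdR : 0 < dg w (Polynomial.aeval g R) := by
    rw [hd.poly g R hg]
    have : 0 < (R.natDegree : ℝ) := by exact_mod_cast Nat.pos_of_ne_zero hR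
    exact mul_pos this hg
  have hchain : dl (Polynomial.aeval g R) = evl2 ![f, g] (dX 1 P) * dl g := by
    have h1 := (chain K 3).chaind P f g
    rw [hev, hP, dX_aeval, e2_zero, zero_mul, zero_add] at h1
    rw [h1, hP]
  have hdl : dl (Polynomial.aeval g R) ≠ 0 := by
    intro h0
    have h1 := hb.dl' (Polynomial.aeval g R)
    rw [h0, hb.zero] at h1
    linarith
  have hne : evl2 ![f, g] (dX 1 P) ≠ 0 := by
    intro h0
    apply hdl
    rw [hchain, h0, zero_mul]
  have hdg : dl g ≠ 0 := by
    intro h0
    apply hdl
    rw [hchain, h0, mul_zero]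
  have h2 := he.v2' f g P h hne
  rw [hev] at h2
  have h3 := hb.mul _ _ hne hdg
  rw [← hchain, hb.dl', hb.dl'] at h3
  rw [h2]; linarith

theorem dv_core (f g : A K 3) (hf : 0 < dg w f) (hDv : Dv w f g) : 0 < dg w g ∧ Com w f g ∧
    ∃ (c : K) (k : ℕ), c ≠ 0 ∧ 1 ≤ k ∧ dg w f = k * dg w g ∧ dg w (f - c • g ^ k) < dg w f := by
  obtain ⟨c, k, hk, hlt⟩ := hDv
  have hc : c ≠ 0 := by
    rintro rfl
    rw [zero_smul, sub_zero] at hlt
    exact lt_irrefl _ hlt
  have heq : dg w f = dg w (c • g ^ k) := by
    rcases lt_trichotomy (dg w f) (dg w (c • g ^ k)) with h1 | h1 | h1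
    · rw [hd.sub_right _ _ h1] at hlt
      exact absurd hlt (not_lt.mpr h1.le)
    · exact h1
    · rw [hd.sub_left _ _ h1] at hlt
      exact absurd hlt (lt_irrefl _)
  have heq2 : dg w f = k * dg w g := by rw [heq, hd.smul c _ hc, hd.pow]
  have hg : 0 < dg w g := by
    rcases lt_or_eq_of_le (hd.nn g) with h1 | h1
    · exact h1
    · rw [← h1, mul_zero] at heq2
      linarith
  refine ⟨hg, ?_, c, k, hc, hk, heq2, hlt⟩
  unfold Com
  have h1 : E w f g = E w (f - c • g ^ k) g := by
    have h2 := E_addp w (f - c • g ^ k) g (Polynomial.monomial k c)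
    rw [Polynomial.aeval_monomial, ← Algebra.smul_def, sub_add_cancel] at h2
    exact h2
  rw [h1]
  have h2 := E_le w hd (f - c • g ^ k) g
  linarith

include hcw in
theorem dv_of (f g : A K 3) (k : ℕ) (hf : 0 < dg w f) (hg : 0 < dg w g) (hc : Com w f g)
    (hk : dg w f = k * dg w g) : Dv w f g := by
  have hk1 : 1 ≤ k := by
    rcases Nat.eq_zero_or_pos k with h1 | h1
    · rw [h1, Nat.cast_zero, zero_mul] at hk
      linarith
    · exact h1
  have hgk : dg w (g ^ k) = k * dg w g := hd.pow g k
  have hgk0 : 0 < dg w (g ^ k) := by rw [hgk, ← hk]; exact hf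
  have hcom : Com w g (g ^ k) := by
    unfold Com
    rw [E_zero w hd g (g ^ k) (by rw [← pow_succ', ← pow_succ])]
    linarith
  have hcom2 : Com w f (g ^ k) := hcw.trans f g (g ^ k) hf hg hgk0 hc hcom
  obtain ⟨c, _, hlt⟩ := hcw.prop f (g ^ k) hf (by rw [hgk, hk]) hcom2
  exact ⟨c, k, hk1, hlt⟩

include he in
theorem E_ncadd (f g : A K 3) (a : K) (R : Polynomial K) (h : f * g ≠ g * f) (ha : a ≠ 0) :
    dg w (a • (f * g - g * f) + Polynomial.aeval g R) =
      max (E w f g) (dg w (Polynomial.aeval g R)) := by
  have h1 : dg w (a • (f * g - g * f)) = E w f g := hd.smul a _ ha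
  have hle : dg w (a • (f * g - g * f) + Polynomial.aeval g R) ≤
      max (E w f g) (dg w (Polynomial.aeval g R)) := by
    have := hd.add_le (a • (f * g - g * f)) (Polynomial.aeval g R)
    rwa [h1] at this
  have hge : E w f g ≤ dg w (a • (f * g - g * f) + Polynomial.aeval g R) := by
    have h2 : E w (a • (f * g - g * f) + Polynomial.aeval g R) g = E w f g + dg w g := by
      rw [E_addp, E_smul w hd a _ _ ha, he.nc f g h]
    have h3 := E_le w hd (a • (f * g - g * f) + Polynomial.aeval g R) g
    linarith
  rcases lt_or_ge (E w f g) (dg w (Polynomial.aeval g R)) with h2 | h2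
  · rw [max_eq_right h2.le]
    apply hd.add_right
    rw [h1]; exact h2
  · rw [max_eq_left h2] at hle ⊢
    exact le_antisymm hle hge

end

theorem efin (K : Type*) [Field K] (w : Fin 3 → ℝ) (hd : DegFacts K w) (hb : DegbFacts K w)
    (hcw : ComwFacts K w) (he : ECore K w) : EFacts K w where
  nn f g := hd.nn _
  comm f g := E_comm w hd f g
  le f g := E_le w hd f g
  zero f g := E_zero w hd f g
  pos f g := E_pos w hd he f g
  smul c f g := E_smul w hd c f g
  addc c f g := by
    unfold E
    congr 1
    rw [add_mul, mul_add, smul_mul_assoc, mul_smul_comm, one_mul, mul_one]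
    abel
  add_le f f' g := by
    unfold E
    have h : (f + f') * g - g * (f + f') = (f * g - g * f) + (f' * g - g * f') := by
      rw [add_mul, mul_add]; abel
    rw [h]; exact hd.add_le _ _
  add_left f f' g h1 := by
    unfold E at h1 ⊢
    have h : (f + f') * g - g * (f + f') = (f * g - g * f) + (f' * g - g * f') := by
      rw [add_mul, mul_add]; abel
    rw [h]; exact hd.add_left _ _ h1
  addp f g R := E_addp w f g R
  nc := he.nc
  ncadd f g a R := E_ncadd w hd he f g a R
  ult := he.ult
  v2 := he.v2
  v2' := he.v2'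
  inj f g P h h0 := by
    obtain ⟨m, hm⟩ := exists_len P
    exact E_inj_len w hd hb he f g h m P hm h0
  inj2 f g T h h0 := by
    obtain ⟨m, hm⟩ := exists_len2 T
    exact inj2_of ![f, g] m (E_inj_len w hd hb he f g h m) T hm h0
  poly f g R h hR := E_poly w hd hb he f g R h hR
  dv f g k := dv_of w hd hcw f g k
  dv' f g hf h := dv_core w hd f g hf h

end Pool.Agent.Lib.MP_e1f7e2_al.FA.H74
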